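import Pool.Agent.Q196.FB.Stmts

/-! Assembly for MP_be51b2_an. -/

set_option autoImplicit false

namespace Pool.Agent.Q196.FB

open Set Filter Topology

/-- The universal property of the free Banach lattice `P` on positive generators `p a`: positive families `g` with
`‖g a‖ ≤ c` are the images of `p` under exactly one lattice homomorphism `T`, and `‖T‖ ≤ c`. -/
structure IsFreePos (A : Type) (P : BL) (p : A → P) : Prop where
  pos : ∀ a, 0 ≤ p a ∧ ‖p a‖ ≤ 1
  univ : ∀ (X : BL) (g : A → X) (c : ℝ), 0 < c → (∀ a, 0 ≤ g a ∧ ‖g a‖ ≤ c) →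
    ∃ T : P →L[ℝ] X, IsLat T ∧ (∀ a, T (p a) = g a) ∧ ‖T‖ ≤ c ∧
      ∀ T' : P →L[ℝ] X, IsLat T' → (∀ a, T' (p a) = g a) → T' = T

theorem assemble (hLp : TaskLp) (hClosure : TaskClosure) (hBound : TaskBound) (hSmall : TaskSmall)
    (hEvHom : TaskEvHom) (hRange : TaskRange) (hGen : TaskGen) (hUniq : TaskUniq) (hUniv : TaskUniv)
    (hUnivC : TaskUnivC) (hPosLift : TaskPosLift) (hProj : TaskProj) (hCount : TaskCount)
    (hNoUnit : TaskNoUnit) (hL1 : TaskL1) (hSum : TaskSum) (hMP : TaskMP) (hMF : TaskMF)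
    (hTrans : TaskTrans) (A : Type) [hA : Uncountable A] :
    ∃ (P : BL) (p : A → P), IsFreePos A P p ∧ Projective P ∧ (∀ e : P, ¬ IsTOU e) ∧
      ∀ (B : Type) (F : BL) (δ : B → F), Nonempty B → IsFree B F δ →
        ¬ ∃ U : P ≃ₗᵢ[ℝ] F, ∀ x y, U (x ⊔ y) = U x ⊔ U y := by
  obtain ⟨P, p, hP⟩ := hGen hLp hClosure hSmall hBound hEvHom hRange A
  have univ := hUniv hRange A P p hP
  have univC := hUnivC A P p univ
  have uniq := hUniq hEvHom A P p hP
  have hz : ∀ a : A, ∃ z : P →L[ℝ] RL, IsLat z ∧ z (p a) = (1 : ℝ) ∧ ∀ b, b ≠ a → z (p b) = (0 : ℝ) := by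
    classical
    intro a
    obtain ⟨T, h1, h2, _⟩ := univ RL (fun b => if b = a then (1 : ℝ) else (0 : ℝ)) (by
      intro b
      by_cases h : b = a
      · simp only [h, if_true]
        exact ⟨zero_le_one' ℝ, (norm_one (α := ℝ)).le⟩
      · simp only [h, if_false]
        exact ⟨le_refl (0 : ℝ), (norm_zero (E := ℝ)).trans_le zero_le_one⟩)
    refine ⟨T, h1, ?_, ?_⟩
    · rw [h2]; simp
    · intro b hb
      rw [h2]; simp [hb]
  choose z hz1 hz2 hz3 using hz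
  have count := hCount hEvHom A P p hP.dense z hz1 hz3
  have sum := hSum hL1 A P p hP.pos univC uniq
  refine ⟨P, p, ⟨hP.pos, ?_⟩, hProj hPosLift A P p hP.pos univC uniq, hNoUnit A hA P p z hz1 hz2 count, ?_⟩
  · intro X g c hc hg
    obtain ⟨T, h1, h2, h3⟩ := univC X g c hc hg
    exact ⟨T, h1, h2, h3, fun T' h1' h2' => uniq X T' T h1' h1 (fun a => by rw [h2', h2])⟩
  · rintro B F δ hB hF ⟨U, hU⟩
    obtain ⟨h, h', hs, hs', hne⟩ := hTrans P F U hU (hMF B F δ hB hF)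
    exact hne (hMP A P p hP.pos z hz1 hz2 hz3 sum uniq h h' hs hs')

end Pool.Agent.Q196.FB
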