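import Pool.Agent.Q196.FB.Stmts

set_option autoImplicit false

namespace Pool.Agent.Q196.FB.TaskBound

open Pool.Agent.Q196.FB

theorem main : Pool.Agent.Q196.FB.TaskBound := by
  intro A t
  induction t with
  | var a => exact ⟨1, fun X g hg => (hg a).2⟩
  | zero =>
    refine ⟨0, fun X g _ => ?_⟩
    show ‖(0 : X)‖ ≤ 0
    rw [norm_zero]
  | add s t ihs iht =>
    obtain ⟨C, hC⟩ := ihs
    obtain ⟨D, hD⟩ := iht
    exact ⟨C + D, fun X g hg => (norm_add_le _ _).trans (add_le_add (hC X g hg) (hD X g hg))⟩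
  | smul r t iht =>
    obtain ⟨D, hD⟩ := iht
    refine ⟨|r| * D, fun X g hg => ?_⟩
    show ‖r • ev g t‖ ≤ _
    rw [norm_smul, Real.norm_eq_abs]
    exact mul_le_mul_of_nonneg_left (hD X g hg) (abs_nonneg r)
  | sup s t ihs iht =>
    obtain ⟨C, hC⟩ := ihs
    obtain ⟨D, hD⟩ := iht
    refine ⟨C + D, fun X g hg => ?_⟩
    show ‖ev g s ⊔ ev g t‖ ≤ _
    exact (norm_sup_le_add _ _).trans (add_le_add (hC X g hg) (hD X g hg))

end Pool.Agent.Q196.FB.TaskBound
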