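import Pool.Agent.Q196.FB.Stmts

set_option autoImplicit false

namespace Pool.Agent.Q196.FB.TaskClosure

open Set Filter Topology Pool.Agent.Q196.FB

theorem main : TaskClosure := by
  intro Y S hS
  let T : Submodule ℝ Y := S.topologicalClosure
  have hTcl : IsClosed (T : Set Y) := S.isClosed_topologicalClosure
  have hcoe : (T : Set Y) = closure (S : Set Y) := S.topologicalClosure_coe
  have hsup : ∀ x ∈ T, ∀ y ∈ T, x ⊔ y ∈ T := by
    intro x hx y hy
    have hx' : x ∈ closure (S : Set Y) := by rw [← hcoe]; exact hx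
    have hy' : y ∈ closure (S : Set Y) := by rw [← hcoe]; exact hy
    have h : x ⊔ y ∈ closure (S : Set Y) :=
      map_mem_closure₂ (f := fun a b : Y => a ⊔ b) continuous_sup hx' hy'
        (fun a ha b hb => hS a ha b hb)
    rw [← hcoe] at h
    exact h
  have hinf : ∀ x ∈ T, ∀ y ∈ T, x ⊓ y ∈ T := by
    intro x hx y hy
    have h := T.neg_mem (hsup _ (T.neg_mem hx) _ (T.neg_mem hy))
    rwa [neg_sup, neg_neg, neg_neg] at h
  letI L : Lattice T := Subtype.lattice (P := fun x => x ∈ T) (fun x y hx hy => hsup x hx y hy)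
    (fun x y hx hy => hinf x hx y hy)
  haveI h1 : IsOrderedAddMonoid T :=
    { add_le_add_left := by
        intro a b h c
        have h' : (a : Y) ≤ (b : Y) := h
        first
        | exact add_le_add_left h' (c : Y)
        | exact add_le_add_right h' (c : Y) }
  haveI h2 : PosSMulMono ℝ T :=
    { smul_le_smul_of_nonneg_left := by
        intro r hr a b h
        have h' : (a : Y) ≤ (b : Y) := h
        have h'' : r • (a : Y) ≤ r • (b : Y) := smul_le_smul_of_nonneg_left h' hr
        exact h'' }
  haveI h3 : HasSolidNorm T :=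
    { solid := by
        intro x y h
        have h' : |(x : Y)| ≤ |(y : Y)| := h
        have h'' : ‖(x : Y)‖ ≤ ‖(y : Y)‖ := HasSolidNorm.solid h'
        exact h'' }
  haveI h4 : CompleteSpace T := hTcl.completeSpace_coe
  haveI : BLat T := { h1, h2, h3, h4 with }
  refine ⟨@BL.mk T _ _ L _, T.subtypeₗᵢ, fun x y => rfl, fun x y h => h, ?_⟩
  rw [← hcoe]
  exact Subtype.range_coe

end Pool.Agent.Q196.FB.TaskClosure
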