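import Pool.Agent.Q196.FB.Stmts

/-! Lattice homomorphisms commute with terms. -/

set_option autoImplicit false

namespace Pool.Agent.Q196.FB.TaskEvHom

open Pool.Agent.Q196.FB

theorem main : Pool.Agent.Q196.FB.TaskEvHom := by
  intro A X Y T hT g t
  induction t with
  | var a => rfl
  | zero => exact map_zero T
  | add s t hs ht =>
    change T (ev g s + ev g t) = _
    rw [map_add, hs, ht]
    rfl
  | smul r t ht =>
    change T (r • ev g t) = _
    rw [map_smul, ht]
    rfl
  | sup s t hs ht =>
    change T (ev g s ⊔ ev g t) = _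
    rw [hT, hs, ht]
    rfl

end Pool.Agent.Q196.FB.TaskEvHom
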