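import Pool.Agent.Q196.FB.Stmts

set_option autoImplicit false

namespace Pool.Agent.Q196.FB.TaskGen

open Set Filter Topology Pool.Agent.Q196.FB

theorem main : Pool.Agent.Q196.FB.TaskGen := by
  intro hLp hCl hSm hBd hEv hRa A
  obtain ⟨I, E, f, hf, hsm⟩ := hSm hBd A
  obtain ⟨Y, π, hπl, hπn, hYn, hYo, hYs⟩ := hLp I E
  have hq' : ∀ a, ∃ y : Y, ∀ i, π i y = f i a :=
    fun a => hYs (fun i => f i a) ⟨1, fun i => (hf i a).2⟩
  choose q hq using hq'
  obtain ⟨S, hS, hSs⟩ := hRa A Y q
  obtain ⟨P, ι, hι, hιo, hιr⟩ := hCl Y S hSs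
  have hp' : ∀ a, ∃ x : P, ι x = q a := by
    intro a
    have h1 : q a ∈ closure (S : Set Y) := subset_closure (by
      rw [hS]
      exact ⟨Term.var a, rfl⟩)
    rw [← hιr] at h1
    exact h1
  choose p hp using hp'
  have hιt : ∀ t, ι (ev p t) = ev q t := by
    intro t
    have h1 := hEv A P Y ι.toContinuousLinearMap hι p t
    have h2 : (fun a => ι.toContinuousLinearMap (p a)) = q := funext hp
    rw [h2] at h1
    exact h1
  have hπt : ∀ i t, π i (ev q t) = ev (f i) t := by
    intro i t
    have h1 := hEv A Y (E i) (π i) (hπl i) q t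
    have h2 : (fun a => π i (q a)) = f i := funext fun a => hq a i
    rw [h2] at h1
    exact h1
  refine ⟨P, p, ?_, ?_, ?_⟩
  · intro a
    constructor
    · refine hιo 0 (p a) ?_
      rw [hp, map_zero]
      refine hYo 0 (q a) fun i => ?_
      rw [map_zero, hq]
      exact (hf i a).1
    · rw [← ι.norm_map, hp]
      refine hYn (q a) 1 zero_le_one fun i => ?_
      rw [hq]
      exact (hf i a).2
  · intro x
    have hind : IsInducing ι := ι.isometry.isUniformInducing.isInducing
    rw [hind.closure_eq_preimage_closure_image]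
    have h1 : ι '' range (ev p) = (S : Set Y) := by
      rw [hS, ← range_comp]
      congr 1
      funext t
      exact hιt t
    rw [mem_preimage, h1, ← hιr]
    exact mem_range_self x
  · intro X g hg t
    refine le_of_forall_pos_le_add fun ε hε => ?_
    obtain ⟨i, hi⟩ := hsm X g hg t ε hε
    refine hi.trans ?_
    have h1 : ‖ev (f i) t‖ ≤ ‖ev p t‖ := by
      rw [← hπt, ← ι.norm_map, hιt]
      exact hπn i _
    linarith

end Pool.Agent.Q196.FB.TaskGen
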