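import Pool.Agent.Q196.FB.Stmts

/-!
# `TaskL1`: the plane with the norm `|s| + |t|` as a Banach lattice
-/

set_option autoImplicit false

namespace Pool.Agent.Q196.FB.TaskL1

open Pool.Agent.Q196.FB

/-- the plane with the norm `|s| + |t|` -/
abbrev Pl : Type := WithLp 1 (ℝ × ℝ)

/-- the pointwise order -/
local instance latPl : Lattice Pl where
  le x y := x.fst ≤ y.fst ∧ x.snd ≤ y.snd
  le_refl _ := ⟨le_rfl, le_rfl⟩
  le_trans _ _ _ h h' := ⟨h.1.trans h'.1, h.2.trans h'.2⟩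
  le_antisymm x y h h' := by
    have h1 : x.fst = y.fst := le_antisymm h.1 h'.1
    have h2 : x.snd = y.snd := le_antisymm h.2 h'.2
    apply WithLp.ofLp_injective
    exact Prod.ext h1 h2
  sup x y := WithLp.toLp 1 (x.fst ⊔ y.fst, x.snd ⊔ y.snd)
  inf x y := WithLp.toLp 1 (x.fst ⊓ y.fst, x.snd ⊓ y.snd)
  le_sup_left _ _ := ⟨le_sup_left, le_sup_left⟩
  le_sup_right _ _ := ⟨le_sup_right, le_sup_right⟩
  sup_le _ _ _ h h' := ⟨sup_le h.1 h'.1, sup_le h.2 h'.2⟩
  inf_le_left _ _ := ⟨inf_le_left, inf_le_left⟩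
  inf_le_right _ _ := ⟨inf_le_right, inf_le_right⟩
  le_inf _ _ _ h h' := ⟨le_inf h.1 h'.1, le_inf h.2 h'.2⟩

theorem le_def (x y : Pl) : x ≤ y ↔ x.fst ≤ y.fst ∧ x.snd ≤ y.snd := Iff.rfl

theorem sup_fst (x y : Pl) : (x ⊔ y).fst = x.fst ⊔ y.fst := rfl

theorem sup_snd (x y : Pl) : (x ⊔ y).snd = x.snd ⊔ y.snd := rfl

theorem norm_def (x : Pl) : ‖x‖ = ‖x.fst‖ + ‖x.snd‖ := WithLp.prod_norm_eq_of_L1 x

local instance ordPl : IsOrderedAddMonoid Pl where
  add_le_add_left a b h c := by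
    rw [le_def] at h ⊢
    exact ⟨by simpa using h.1, by simpa using h.2⟩

local instance smulPl : PosSMulMono ℝ Pl where
  smul_le_smul_of_nonneg_left r hr a b h := by
    rw [le_def] at h ⊢
    exact ⟨by simpa using mul_le_mul_of_nonneg_left h.1 hr,
      by simpa using mul_le_mul_of_nonneg_left h.2 hr⟩

local instance solidPl : HasSolidNorm Pl where
  solid x y h := by
    have h1 : |x.fst| ≤ |y.fst| := h.1
    have h2 : |x.snd| ≤ |y.snd| := h.2
    rw [norm_def, norm_def, Real.norm_eq_abs, Real.norm_eq_abs, Real.norm_eq_abs,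
      Real.norm_eq_abs]
    exact add_le_add h1 h2

local instance blatPl : BLat Pl where

/-- the first coordinate -/
noncomputable def uL : Pl →L[ℝ] ℝ :=
  LinearMap.mkContinuous
    { toFun := fun x => x.fst
      map_add' := fun _ _ => rfl
      map_smul' := fun _ _ => rfl } 1 (fun x => by
        have h := norm_nonneg x.snd
        show ‖x.fst‖ ≤ 1 * ‖x‖
        rw [norm_def x]
        linarith)

/-- the second coordinate -/
noncomputable def vL : Pl →L[ℝ] ℝ :=
  LinearMap.mkContinuous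
    { toFun := fun x => x.snd
      map_add' := fun _ _ => rfl
      map_smul' := fun _ _ => rfl } 1 (fun x => by
        have h := norm_nonneg x.fst
        show ‖x.snd‖ ≤ 1 * ‖x‖
        rw [norm_def x]
        linarith)

theorem main : Pool.Agent.Q196.FB.TaskL1 :=
  ⟨⟨Pl⟩, uL, vL, fun _ _ => rfl, fun _ _ => rfl, fun x => norm_def x,
    fun _ _ h h' => ⟨h, h'⟩, fun s t => ⟨WithLp.toLp 1 (s, t), rfl, rfl⟩⟩

end Pool.Agent.Q196.FB.TaskL1
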