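import Pool.Agent.Q196.FB.Stmts

/-!
`TaskLp`: the `ℓ^∞`-sum of Banach lattices (blueprint of helper196 for MP_be51b2_an).
-/

set_option autoImplicit false

namespace Pool.Agent.Q196.FB.TaskLp

open Pool.Agent.Q196.FB Set
open scoped ENNReal

variable {I : Type} {E : I → BL}

/-- the space -/
abbrev YT (E : I → BL) : Type := lp (fun i => (E i).carrier) ∞

theorem norm_comp_le (x : YT E) (i : I) : ‖x i‖ ≤ ‖x‖ := lp.norm_apply_le_norm ENNReal.top_ne_zero x i

theorem sup_mem (x y : YT E) : Memℓp (fun i => (x i ⊔ y i : (E i).carrier)) ∞ := by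
  apply memℓp_infty
  refine ⟨‖x‖ + ‖y‖, ?_⟩
  rintro _ ⟨i, rfl⟩
  exact (norm_sup_le_add _ _).trans (add_le_add (norm_comp_le x i) (norm_comp_le y i))

theorem inf_mem (x y : YT E) : Memℓp (fun i => (x i ⊓ y i : (E i).carrier)) ∞ := by
  apply memℓp_infty
  refine ⟨‖x‖ + ‖y‖, ?_⟩
  rintro _ ⟨i, rfl⟩
  exact (norm_inf_le_add _ _).trans (add_le_add (norm_comp_le x i) (norm_comp_le y i))

noncomputable instance latI : Lattice (YT E) where
  le x y := ∀ i, x i ≤ y i
  le_refl x i := le_rfl
  le_trans x y z h1 h2 i := (h1 i).trans (h2 i)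
  le_antisymm x y h1 h2 := by
    apply lp.ext
    funext i
    exact le_antisymm (h1 i) (h2 i)
  sup x y := ⟨fun i => x i ⊔ y i, sup_mem x y⟩
  inf x y := ⟨fun i => x i ⊓ y i, inf_mem x y⟩
  le_sup_left x y i := le_sup_left
  le_sup_right x y i := le_sup_right
  sup_le x y z h1 h2 i := sup_le (h1 i) (h2 i)
  inf_le_left x y i := inf_le_left
  inf_le_right x y i := inf_le_right
  le_inf x y z h1 h2 i := le_inf (h1 i) (h2 i)

theorem le_iff (x y : YT E) : x ≤ y ↔ ∀ i, x i ≤ y i := Iff.rfl

theorem sup_apply (x y : YT E) (i : I) : (x ⊔ y) i = x i ⊔ y i := rfl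

instance oam : IsOrderedAddMonoid (YT E) where
  add_le_add_left a b h c := by
    intro i
    have h' := h i
    have e1 : (a + c) i = a i + c i := rfl
    have e2 : (b + c) i = b i + c i := rfl
    rw [e1, e2]
    gcongr

instance psm : PosSMulMono ℝ (YT E) where
  smul_le_smul_of_nonneg_left r hr x y h := by
    intro i
    exact smul_le_smul_of_nonneg_left (h i) hr

instance sol : HasSolidNorm (YT E) where
  solid x y h := by
    refine lp.norm_le_of_forall_le (norm_nonneg y) fun i => ?_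
    have h' : |x i| ≤ |y i| := h i
    exact (HasSolidNorm.solid h').trans (norm_comp_le y i)

instance blat : BLat (YT E) where

/-- the sum -/
noncomputable def Y (E : I → BL) : BL := ⟨YT E⟩

/-- the coordinates -/
noncomputable def pr (E : I → BL) (i : I) : Y E →L[ℝ] E i :=
  LinearMap.mkContinuous (E := YT E) (F := (E i).carrier)
    ⟨⟨fun y => y i, fun _ _ => rfl⟩, fun _ _ => rfl⟩ 1 (by
      intro y
      rw [one_mul]
      exact norm_comp_le y i)

theorem main : Pool.Agent.Q196.FB.TaskLp := by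
  intro I E
  refine ⟨Y E, pr E, ?_, ?_, ?_, ?_, ?_⟩
  · intro i x y
    rfl
  · intro i y
    exact norm_comp_le (E := E) y i
  · intro y C hC h
    exact lp.norm_le_of_forall_le (E := fun i => (E i).carrier) hC h
  · intro x y h
    exact h
  · rintro v ⟨C, hC⟩
    have hv : Memℓp (E := fun i => (E i).carrier) v ∞ := by
      apply memℓp_infty
      refine ⟨C, ?_⟩
      rintro _ ⟨i, rfl⟩
      exact hC i
    exact ⟨(⟨v, hv⟩ : YT E), fun i => rfl⟩

end Pool.Agent.Q196.FB.TaskLp
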