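import Mathlib

/-! MP_be51b2_an, Q1 (full answer: NO). Blueprint. Prove `theorem main : TaskX` in the file
`Pool/Agent/Q196/FB/TaskX.lean`, namespace `Pool.Agent.Q196.FB.TaskX` (import Pool.Agent.Q196.FB.Stmts).
All dependencies are hypotheses inside the statements, so all can be proved at once.

Idea: the free Banach lattice `P` on uncountably many POSITIVE generators `p a` (`IsPosFree`) is projective (lift positive
elements), has no topological order unit, and is not free: `h = 1` (all `p a ↦ 1`) is the only real lattice homomorphism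
`h`, `‖h‖ ≤ 1`, with `‖h + z‖ = 1 + ‖z‖` for all real lattice homomorphisms `z`; on a free Banach lattice there are
several (`δ b ↦ ± 1`). -/

set_option autoImplicit false

namespace Pool.Agent.Q196.FB

open Set Filter Topology

/-- the order properties and the completeness of a Banach lattice -/
class BLat (X : Type) [NormedAddCommGroup X] [NormedSpace ℝ X] [Lattice X] : Prop extends
  IsOrderedAddMonoid X, PosSMulMono ℝ X, HasSolidNorm X, CompleteSpace X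

/-- Banach lattices -/
structure BL where
  carrier : Type
  [g : NormedAddCommGroup carrier]
  [s : NormedSpace ℝ carrier]
  [l : Lattice carrier]
  [b : BLat carrier]

instance : CoeSort BL Type := ⟨BL.carrier⟩
instance (X : BL) : NormedAddCommGroup X := X.g
instance (X : BL) : NormedSpace ℝ X := X.s
instance (X : BL) : Lattice X := X.l
instance (X : BL) : BLat X := X.b

instance : BLat ℝ where

/-- the real line -/
noncomputable abbrev RL : BL := ⟨ℝ⟩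

/-- `T` preserves suprema (a lattice homomorphism if `T` is linear) -/
def IsLat {X Y : BL} (T : X → Y) : Prop := ∀ x y, T (x ⊔ y) = T x ⊔ T y

/-- `Q` is the quotient map of a Banach lattice by a closed ideal (its kernel) -/
structure IsQuot {X Y : BL} (Q : X →L[ℝ] Y) : Prop where
  lat : IsLat Q
  surj : Function.Surjective Q
  norm : ∀ y, ‖y‖ = sInf {r : ℝ | ∃ x, Q x = y ∧ r = ‖x‖}

/-- projective Banach lattices -/
def Projective (P : BL) : Prop := ∀ (X Y : BL) (Q : X →L[ℝ] Y), IsQuot Q → ∀ (T : P →L[ℝ] Y), IsLat T →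
  ∀ ε : ℝ, 0 < ε → ∃ T' : P →L[ℝ] X, IsLat T' ∧ (∀ x, Q (T' x) = T x) ∧ ‖T'‖ ≤ (1 + ε) * ‖T‖

/-- topological order units -/
def IsTOU {P : BL} (e : P) : Prop := 0 ≤ e ∧ Dense {y : P | ∃ n : ℕ, |y| ≤ n • e}

/-- `F` is the free Banach lattice on `A` with the generators `δ a` -/
structure IsFree (A : Type) (F : BL) (δ : A → F) : Prop where
  norm_one : ∀ a, ‖δ a‖ = 1
  univ : ∀ (X : BL) (f : A → X), BddAbove (range fun a => ‖f a‖) → ∃ T : F →L[ℝ] X, IsLat T ∧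
    (∀ a, T (δ a) = f a) ∧ ‖T‖ = ⨆ a, ‖f a‖ ∧ ∀ T' : F →L[ℝ] X, IsLat T' → (∀ a, T' (δ a) = f a) → T' = T

/-- lattice-linear terms in the variables `a : A` -/
inductive Term (A : Type) : Type
  | var : A → Term A
  | zero : Term A
  | add : Term A → Term A → Term A
  | smul : ℝ → Term A → Term A
  | sup : Term A → Term A → Term A

/-- value of a term -/
def ev {A : Type} {X : BL} (g : A → X) : Term A → X
  | .var a => g a
  | .zero => 0
  | .add s t => ev g s + ev g t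
  | .smul r t => r • ev g t
  | .sup s t => ev g s ⊔ ev g t

/-- positive families in the unit ball -/
def PosC {A : Type} {X : BL} (g : A → X) : Prop := ∀ a, 0 ≤ g a ∧ ‖g a‖ ≤ 1

/-- the free Banach lattice on positive generators -/
structure IsPosFree (A : Type) (P : BL) (p : A → P) : Prop where
  pos : PosC p
  dense : Dense (range (ev p))
  dom : ∀ (X : BL) (g : A → X), PosC g → ∀ t, ‖ev g t‖ ≤ ‖ev p t‖

/-! ### construction -/

/-- the `ℓ^∞`-sum of Banach lattices (`lp E ∞` with the pointwise order; closed under suprema as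
`‖x ⊔ y‖ ≤ ‖x‖ + ‖y‖`; norm: `lp.norm_apply_le_norm`, `lp.norm_le_of_forall_le`) -/
def TaskLp : Prop := ∀ (I : Type) (E : I → BL), ∃ (Y : BL) (π : ∀ i, Y →L[ℝ] E i), (∀ i, IsLat (π i)) ∧
  (∀ i y, ‖π i y‖ ≤ ‖y‖) ∧ (∀ (y : Y) (C : ℝ), 0 ≤ C → (∀ i, ‖π i y‖ ≤ C) → ‖y‖ ≤ C) ∧
  (∀ x y : Y, (∀ i, π i x ≤ π i y) → x ≤ y) ∧
  ∀ v : ∀ i, E i, (∃ C : ℝ, ∀ i, ‖v i‖ ≤ C) → ∃ y, ∀ i, π i y = v i

/-- the closure of a sublattice is a Banach lattice (`Submodule.topologicalClosure`, `Subtype` order; `x ↦ x ⊔ y` is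
continuous in a normed lattice) -/
def TaskClosure : Prop := ∀ (Y : BL) (S : Submodule ℝ Y), (∀ x ∈ S, ∀ y ∈ S, x ⊔ y ∈ S) →
  ∃ (P : BL) (ι : P →ₗᵢ[ℝ] Y), (∀ x y, ι (x ⊔ y) = ι x ⊔ ι y) ∧ (∀ x y, ι x ≤ ι y → x ≤ y) ∧
    range ι = closure (S : Set Y)

/-- induction on `t`; `‖x ⊔ y‖ ≤ ‖x‖ + ‖y‖` (`|x ⊔ y| ≤ |x| + |y|`) -/
def TaskBound : Prop := ∀ (A : Type) (t : Term A), ∃ C : ℝ, ∀ (X : BL) (g : A → X), PosC g → ‖ev g t‖ ≤ C

/-- choose for every term `t` and `n : ℕ` a family whose value at `t` has norm at least `sup - 1/(n+1)`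
(`I = Term A × ℕ`; `sSup {r | ∃ X g, PosC g ∧ r = ‖ev g t‖}`, nonempty by `RL` and `g = 0`, bounded by `TaskBound`) -/
def TaskSmall : Prop := TaskBound → ∀ A : Type, ∃ (I : Type) (E : I → BL) (f : ∀ i, A → E i), (∀ i, PosC (f i)) ∧
  ∀ (X : BL) (g : A → X), PosC g → ∀ (t : Term A) (ε : ℝ), 0 < ε → ∃ i, ‖ev g t‖ ≤ ‖ev (f i) t‖ + ε

/-- lattice homomorphisms commute with terms (induction) -/
def TaskEvHom : Prop := ∀ (A : Type) (X Y : BL) (T : X →L[ℝ] Y), IsLat T → ∀ (g : A → X) (t : Term A),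
  T (ev g t) = ev (fun a => T (g a)) t

/-- the values of terms are a sublattice -/
def TaskRange : Prop := ∀ (A : Type) (X : BL) (g : A → X), ∃ S : Submodule ℝ X, (S : Set X) = range (ev g) ∧
  ∀ x ∈ S, ∀ y ∈ S, x ⊔ y ∈ S

/-- existence: take `E i`, `f i` from `TaskSmall`, `Y`, `π` from `TaskLp`, `q a ∈ Y` with `π i (q a) = f i a`, `S` = values of
terms at `q` (`TaskRange`), `P`, `ι` from `TaskClosure`, `ι (p a) = q a`; then `ι (ev p t) = ev q t` (`TaskEvHom`), and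
`‖ev g t‖ ≤ ‖ev (f i) t‖ + ε = ‖π i (ev q t)‖ + ε ≤ ‖ev q t‖ + ε = ‖ev p t‖ + ε` -/
def TaskGen : Prop := TaskLp → TaskClosure → TaskSmall → TaskBound → TaskEvHom → TaskRange → ∀ A : Type,
  ∃ (P : BL) (p : A → P), IsPosFree A P p

/-! ### universal property -/

/-- lattice homomorphisms which agree on the generators are equal -/
def TaskUniq : Prop := TaskEvHom → ∀ (A : Type) (P : BL) (p : A → P), IsPosFree A P p → ∀ (X : BL) (T T' : P →L[ℝ] X),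
  IsLat T → IsLat T' → (∀ a, T (p a) = T' (p a)) → T = T'

/-- extension by continuity of `ev p t ↦ ev g t` (well defined: `ev p s = ev p t` implies
`‖ev g (s - t)‖ ≤ ‖ev p (s - t)‖ = 0`) from the dense submodule `S = range (ev p)` (`TaskRange`; `LinearMap.extendTo..`,
`ContinuousLinearMap.extend`, `IsDenseInducing.extend`) -/
def TaskUniv : Prop := TaskRange → ∀ (A : Type) (P : BL) (p : A → P), IsPosFree A P p → ∀ (X : BL) (g : A → X), PosC g →
  ∃ T : P →L[ℝ] X, IsLat T ∧ (∀ a, T (p a) = g a) ∧ ‖T‖ ≤ 1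

/-- the conclusion of `TaskUniv` for arbitrary bounds: apply it to `c⁻¹ • g` -/
def TaskUnivC : Prop := ∀ (A : Type) (P : BL) (p : A → P), (∀ (X : BL) (g : A → X), PosC g →
  ∃ T : P →L[ℝ] X, IsLat T ∧ (∀ a, T (p a) = g a) ∧ ‖T‖ ≤ 1) → ∀ (X : BL) (g : A → X) (c : ℝ), 0 < c →
  (∀ a, 0 ≤ g a ∧ ‖g a‖ ≤ c) → ∃ T : P →L[ℝ] X, IsLat T ∧ (∀ a, T (p a) = g a) ∧ ‖T‖ ≤ c

/-! ### projective -/

/-- lifting of positive elements: take a lift `x` with `‖x‖ < c` (definition of the infimum), then `x⁺ = x ⊔ 0` -/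
def TaskPosLift : Prop := ∀ (X Y : BL) (Q : X →L[ℝ] Y), IsQuot Q → ∀ (y : Y) (c : ℝ), 0 ≤ y → ‖y‖ < c →
  ∃ x : X, 0 ≤ x ∧ Q x = y ∧ ‖x‖ ≤ c

/-- for `T ≠ 0` lift the `T (p a)` with `c = (1 + ε) ‖T‖` and use uniqueness; for `T = 0` take `0` -/
def TaskProj : Prop := TaskPosLift → ∀ (A : Type) (P : BL) (p : A → P), PosC p →
  (∀ (X : BL) (g : A → X) (c : ℝ), 0 < c →
    (∀ a, 0 ≤ g a ∧ ‖g a‖ ≤ c) → ∃ T : P →L[ℝ] X, IsLat T ∧ (∀ a, T (p a) = g a) ∧ ‖T‖ ≤ c) →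
  (∀ (X : BL) (T T' : P →L[ℝ] X), IsLat T → IsLat T' → (∀ a, T (p a) = T' (p a)) → T = T') → Projective P

/-! ### no topological order unit -/

/-- for a term `t` without the variable `a` (all but finitely many `a`) `z a (ev p t) = 0`; by density
(`mem_closure_iff_seq_limit`) for every `x` all but countably many `z a x` are `0` -/
def TaskCount : Prop := TaskEvHom → ∀ (A : Type) (P : BL) (p : A → P), Dense (range (ev p)) →
  ∀ z : A → (P →L[ℝ] RL), (∀ a, IsLat (z a)) → (∀ a b, b ≠ a → z a (p b) = (0 : ℝ)) → ∀ x : P,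
  {a | z a x ≠ (0 : ℝ)}.Countable

/-- `z a e = 0` for some `a`; then `z a = 0` on the ideal of `e`, so `z a = 0` by density, but `z a (p a) = 1` -/
def TaskNoUnit : Prop := ∀ (A : Type), Uncountable A → ∀ (P : BL) (p : A → P) (z : A → (P →L[ℝ] RL)),
  (∀ a, IsLat (z a)) → (∀ a, z a (p a) = (1 : ℝ)) → (∀ x : P, {a | z a x ≠ (0 : ℝ)}.Countable) → ∀ e : P, ¬ IsTOU e

/-! ### not free -/

/-- the set of special real lattice homomorphisms -/
def Special {P : BL} (h : P →L[ℝ] RL) : Prop := IsLat h ∧ ‖h‖ ≤ 1 ∧ ∀ z : P →L[ℝ] RL, IsLat z → ‖h + z‖ = 1 + ‖z‖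

/-- the plane with the norm `|s| + |t|` -/
def TaskL1 : Prop := ∃ (X : BL) (u v : X →L[ℝ] RL), IsLat u ∧ IsLat v ∧ (∀ x, ‖x‖ = ‖u x‖ + ‖v x‖) ∧
  (∀ x y, u x ≤ u y → v x ≤ v y → x ≤ y) ∧ ∀ s t : RL, ∃ x, u x = s ∧ v x = t

/-- apply the universal property to `X = ℝ²` with the norm `|s| + |t|` and `g a = (h (p a), k (p a))` -/
def TaskSum : Prop := TaskL1 → ∀ (A : Type) (P : BL) (p : A → P), PosC p →
  (∀ (X : BL) (g : A → X) (c : ℝ), 0 < c →
    (∀ a, 0 ≤ g a ∧ ‖g a‖ ≤ c) → ∃ T : P →L[ℝ] X, IsLat T ∧ (∀ a, T (p a) = g a) ∧ ‖T‖ ≤ c) →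
  (∀ (X : BL) (T T' : P →L[ℝ] X), IsLat T → IsLat T' → (∀ a, T (p a) = T' (p a)) → T = T') →
  ∀ (h k : P →L[ℝ] RL) (c : ℝ), IsLat h → IsLat k → 0 < c → (∀ a, ‖h (p a)‖ + ‖k (p a)‖ ≤ c) → ‖h + k‖ ≤ c

/-- take `z = z a`: `2 ≤ ‖h + z a‖ ≤ max (1 + h (p a)) 1` by `TaskSum`, so `h (p a) = 1` for all `a` -/
def TaskMP : Prop := ∀ (A : Type) (P : BL) (p : A → P), PosC p → ∀ z : A → (P →L[ℝ] RL), (∀ a, IsLat (z a)) →
  (∀ a, z a (p a) = (1 : ℝ)) → (∀ a b, b ≠ a → z a (p b) = (0 : ℝ)) →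
  (∀ (h k : P →L[ℝ] RL) (c : ℝ), IsLat h → IsLat k → 0 < c → (∀ a, ‖h (p a)‖ + ‖k (p a)‖ ≤ c) → ‖h + k‖ ≤ c) →
  (∀ (X : BL) (T T' : P →L[ℝ] X), IsLat T → IsLat T' → (∀ a, T (p a) = T' (p a)) → T = T') →
  ∀ h h' : P →L[ℝ] RL, Special h → Special h' → h = h'

/-- `δ b ↦ 1` and `δ b ↦ -1`: `‖h + z‖ ≥ (h + z) |δ b| = |h (δ b)| + |z (δ b)| = 1 + |z (δ b)|` and `‖z‖ = sup |z (δ b)|` -/
def TaskMF : Prop := ∀ (B : Type) (F : BL) (δ : B → F), Nonempty B → IsFree B F δ →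
  ∃ h h' : F →L[ℝ] RL, Special h ∧ Special h' ∧ h ≠ h'

/-- transport `Special` by an isometric lattice isomorphism: `h ∘ U` -/
def TaskTrans : Prop := ∀ (P F : BL) (U : P ≃ₗᵢ[ℝ] F), (∀ x y, U (x ⊔ y) = U x ⊔ U y) →
  (∃ h h' : F →L[ℝ] RL, Special h ∧ Special h' ∧ h ≠ h') → ∃ h h' : P →L[ℝ] RL, Special h ∧ Special h' ∧ h ≠ h'

/-- the final statement -/
def Goal : Prop := ∃ P : BL, Projective P ∧ (∀ e : P, ¬ IsTOU e) ∧
  ∀ (B : Type) (F : BL) (δ : B → F), Nonempty B → IsFree B F δ →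
    ¬ ∃ U : P ≃ₗᵢ[ℝ] F, ∀ x y, U (x ⊔ y) = U x ⊔ U y

end Pool.Agent.Q196.FB
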