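import Mathlib
import Pool.Agent.Q196.FB.Stmts

set_option autoImplicit false

namespace Pool.Agent.Q196.FB.TaskMF

open Set Filter Topology

theorem lat_abs {F : BL} (T : F →L[ℝ] RL) (hT : IsLat T) (x : F) :
    T |x| = (|(T x : ℝ)| : ℝ) := by
  have h : T |x| = T x ⊔ T (-x) := hT x (-x)
  rw [h, map_neg]
  rfl

theorem norm_z {B : Type} {F : BL} {δ : B → F} (hF : IsFree B F δ) (z : F →L[ℝ] RL)
    (hz : IsLat z) : ‖z‖ = ⨆ b, ‖z (δ b)‖ := by
  obtain ⟨T, _, hTδ, hn, hu⟩ := hF.univ RL (fun b => z (δ b)) ⟨‖z‖, by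
    rintro _ ⟨b, rfl⟩
    have := z.le_opNorm (δ b)
    rw [hF.norm_one b, mul_one] at this
    exact this⟩
  have h := hu z hz (fun b => rfl)
  rw [h, hn]
  congr 1
  funext b
  rw [hTδ b]

theorem lower {B : Type} {F : BL} {δ : B → F} (hF : IsFree B F δ) (h z : F →L[ℝ] RL)
    (hh : IsLat h) (hz : IsLat z) (h1 : ∀ b, |(h (δ b) : ℝ)| = 1) (b : B) :
    1 + ‖z (δ b)‖ ≤ ‖h + z‖ := by
  have e1 : (h + z) |δ b| = (1 + |(z (δ b) : ℝ)| : ℝ) := by
    have : (h + z) |δ b| = (h |δ b| + z |δ b| : ℝ) := rfl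
    rw [this, lat_abs h hh, lat_abs z hz, h1 b]
  have e2 := (h + z).le_opNorm |δ b|
  have e3 : ‖|δ b|‖ = 1 := by
    rw [norm_abs_eq_norm, hF.norm_one b]
  rw [e3, mul_one] at e2
  have e4 : ‖(h + z) |δ b|‖ = |(1 + |(z (δ b) : ℝ)| : ℝ)| := by
    rw [e1]
    rfl
  rw [e4] at e2
  have e5 : ‖z (δ b)‖ = |(z (δ b) : ℝ)| := rfl
  rw [e5]
  exact (le_abs_self _).trans e2

theorem exists_special {B : Type} {F : BL} {δ : B → F} (hB : Nonempty B) (hF : IsFree B F δ)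
    (c : ℝ) (hc : |c| = 1) : ∃ h : F →L[ℝ] RL, Special h ∧ ∀ b, (h (δ b) : ℝ) = c := by
  obtain ⟨h, hl, hδ, hn, _⟩ := hF.univ RL (fun _ => c) ⟨1, by
    rintro _ ⟨b, rfl⟩
    exact hc.le⟩
  have hn1 : ‖h‖ = 1 := by
    rw [hn]
    have : (fun _ : B => ‖(c : RL)‖) = fun _ : B => (1 : ℝ) := by
      funext _
      exact hc
    rw [this, ciSup_const]
  refine ⟨h, ⟨hl, hn1.le, fun z hz => ?_⟩, hδ⟩
  apply le_antisymm
  · have := norm_add_le h z
    rw [hn1] at this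
    exact this
  · have hle : ‖z‖ ≤ ‖h + z‖ - 1 := by
      rw [norm_z hF z hz]
      apply ciSup_le
      intro b
      have := lower hF h z hl hz (fun b => by rw [hδ b]; exact hc) b
      linarith
    linarith

theorem main : TaskMF := by
  intro B F δ hB hF
  obtain ⟨h, hs, h1⟩ := exists_special hB hF 1 (by simp)
  obtain ⟨h', hs', h1'⟩ := exists_special hB hF (-1) (by simp)
  refine ⟨h, h', hs, hs', ?_⟩
  rintro rfl
  obtain ⟨b⟩ := hB
  have := (h1 b).symm.trans (h1' b)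
  norm_num at this

end Pool.Agent.Q196.FB.TaskMF

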