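import Pool.Agent.Q196.FB.Stmts

set_option autoImplicit false

namespace Pool.Agent.Q196.FB.TaskMP

open Pool.Agent.Q196.FB

theorem main : Pool.Agent.Q196.FB.TaskMP := by
  intro A P p hp z hz hz1 hz0 hsum huniq h h' hh hh'
  have key : ∀ h : P →L[ℝ] RL, Special h → ∀ a, h (p a) = (1 : ℝ) := by
    intro h hh a
    obtain ⟨hlat, hn, hs⟩ := hh
    have hpos : (0 : ℝ) ≤ h (p a) := by
      have h1 : p a ⊔ 0 = p a := sup_eq_left.2 (hp a).1
      have h2 := hlat (p a) 0
      rw [h1, map_zero] at h2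
      rw [h2]
      exact le_sup_right
    have hle : ∀ b, ‖h (p b)‖ ≤ (1 : ℝ) := by
      intro b
      calc ‖h (p b)‖ ≤ ‖h‖ * ‖p b‖ := h.le_opNorm _
        _ ≤ 1 * 1 := mul_le_mul hn (hp b).2 (norm_nonneg _) zero_le_one
        _ = 1 := one_mul 1
    have hz2 : (1 : ℝ) ≤ ‖z a‖ := by
      have h3 := (z a).le_opNorm (p a)
      have h4 : ‖z a (p a)‖ = (1 : ℝ) := by
        rw [hz1 a]
        exact norm_one (α := ℝ)
      have h5 : ‖z a‖ * ‖p a‖ ≤ ‖z a‖ * 1 := mul_le_mul_of_nonneg_left (hp a).2 (norm_nonneg _)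
      linarith
    have h6 := hs (z a) (hz a)
    have h7 := hsum h (z a) (‖h (p a)‖ + 1) hlat (hz a) (by positivity) (fun b => by
      by_cases hb : b = a
      · subst hb
        have h4 : ‖z b (p b)‖ = (1 : ℝ) := by
          rw [hz1 b]
          exact norm_one (α := ℝ)
        rw [h4]
      · have h4 : ‖z a (p b)‖ = (0 : ℝ) := by
          rw [hz0 a b hb]
          exact norm_zero (E := ℝ)
        rw [h4]
        have h8 := hle b
        have h9 : 0 ≤ ‖h (p a)‖ := norm_nonneg _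
        linarith)
    have h10 : ‖h (p a)‖ = (1 : ℝ) := le_antisymm (hle a) (by linarith)
    have h11 : ‖h (p a)‖ = h (p a) := Real.norm_of_nonneg hpos
    rw [← h11]
    exact h10
  exact huniq RL h h' hh.1 hh'.1 (fun a => by rw [key h hh a, key h' hh' a])

end Pool.Agent.Q196.FB.TaskMP
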