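import Pool.Agent.Q196.FB.Stmts

set_option autoImplicit false

namespace Pool.Agent.Q196.FB.TaskNoUnit

open Set Filter Topology

theorem mono {X Y : BL} (T : X →L[ℝ] Y) (hT : IsLat T) {x y : X} (h : x ≤ y) : T x ≤ T y := by
  have h1 := hT x y
  rw [sup_eq_right.mpr h] at h1
  rw [h1]
  exact le_sup_left

theorem abs_map {X Y : BL} (T : X →L[ℝ] Y) (hT : IsLat T) (x : X) : T |x| = |T x| := by
  have h1 := hT x (-x)
  rw [map_neg] at h1
  exact h1

theorem zero_of_le {X Y : BL} (T : X →L[ℝ] Y) (hT : IsLat T) (e : X) (he : T e = 0) (x : X)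
    (h : ∃ n : ℕ, |x| ≤ n • e) : T x = 0 := by
  obtain ⟨n, hn⟩ := h
  have h1 := mono T hT hn
  rw [abs_map T hT, map_nsmul, he, smul_zero] at h1
  have h2 : ‖T x‖ ≤ ‖(0 : Y)‖ := HasSolidNorm.solid (by simpa using h1)
  rw [norm_zero] at h2
  exact norm_le_zero_iff.mp h2

theorem main : Pool.Agent.Q196.FB.TaskNoUnit := by
  intro A hA P p z hz h1 hc e he
  have hex : ∃ a, z a e = 0 := by
    by_contra hcon
    push Not at hcon
    have : {a | z a e ≠ (0 : ℝ)} = Set.univ := by
      ext a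
      simp only [mem_setOf_eq, mem_univ, iff_true]
      exact hcon a
    have h2 := hc e
    rw [this] at h2
    exact (not_countable_iff.mpr hA) (Set.countable_univ_iff.mp h2)
  obtain ⟨a, ha⟩ := hex
  have hcl : IsClosed {y : P | z a y = 0} := isClosed_eq (z a).continuous continuous_const
  have hsub : {y : P | ∃ n : ℕ, |y| ≤ n • e} ⊆ {y : P | z a y = 0} :=
    fun y hy => zero_of_le (z a) (hz a) e ha y hy
  have h3 := (he.2.mono hsub).closure_eq
  rw [hcl.closure_eq] at h3
  have h4 : p a ∈ {y : P | z a y = 0} := by rw [h3]; exact mem_univ _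
  have h5 : z a (p a) = 0 := h4
  rw [h1 a] at h5
  exact (one_ne_zero : (1 : ℝ) ≠ 0) h5

end Pool.Agent.Q196.FB.TaskNoUnit
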