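import Pool.Agent.Q196.FB.Stmts

set_option autoImplicit false

namespace Pool.Agent.Q196.FB.TaskPosLift

open Set Filter Topology

theorem main : TaskPosLift := by
  intro X Y Q hQ y c hy hc
  have hne : {r : ℝ | ∃ x, Q x = y ∧ r = ‖x‖}.Nonempty := by
    obtain ⟨x, hx⟩ := hQ.surj y
    exact ⟨‖x‖, x, hx, rfl⟩
  rw [hQ.norm y] at hc
  obtain ⟨r, ⟨x, hx, rfl⟩, hr⟩ := exists_lt_of_csInf_lt hne hc
  refine ⟨x ⊔ 0, le_sup_right, ?_, ?_⟩
  · rw [hQ.lat, hx, map_zero]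
    exact sup_of_le_left hy
  · refine le_trans (HasSolidNorm.solid ?_) hr.le
    rw [abs_of_nonneg (le_sup_right : (0 : X) ≤ x ⊔ 0)]
    exact sup_le (le_abs_self x) (abs_nonneg x)

end Pool.Agent.Q196.FB.TaskPosLift
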