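import Pool.Agent.Q196.FB.Stmts

set_option autoImplicit false

namespace Pool.Agent.Q196.FB.TaskProj

open Set Filter Topology

theorem lat_nonneg {X Y : BL} {T : X →L[ℝ] Y} (h : IsLat T) {x : X} (hx : 0 ≤ x) : 0 ≤ T x := by
  have h1 := h x 0
  rw [sup_of_le_left hx, map_zero] at h1
  rw [h1]
  exact le_sup_right

theorem main : TaskProj := by
  intro hPL A P p hp huniv huniq X Y Q hQ T hT ε hε
  by_cases hT0 : T = 0
  · subst hT0
    refine ⟨0, ?_, ?_, ?_⟩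
    · intro x y
      simp
    · intro x
      simp
    · simp
  · have hn : 0 < ‖T‖ := norm_pos_iff.mpr hT0
    have hlt : ‖T‖ < (1 + ε) * ‖T‖ := by nlinarith
    have hl : ∀ a, ∃ x : X, 0 ≤ x ∧ Q x = T (p a) ∧ ‖x‖ ≤ (1 + ε) * ‖T‖ := by
      intro a
      refine hPL X Y Q hQ (T (p a)) _ (lat_nonneg hT (hp a).1) (lt_of_le_of_lt ?_ hlt)
      calc ‖T (p a)‖ ≤ ‖T‖ * ‖p a‖ := T.le_opNorm _
        _ ≤ ‖T‖ * 1 := by gcongr; exact (hp a).2
        _ = ‖T‖ := mul_one _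
    choose g hg1 hg2 hg3 using hl
    obtain ⟨T', h1, h2, h3⟩ := huniv X g ((1 + ε) * ‖T‖) (by positivity) (fun a => ⟨hg1 a, hg3 a⟩)
    refine ⟨T', h1, ?_, h3⟩
    have heq : Q.comp T' = T := by
      refine huniq Y _ _ ?_ hT ?_
      · intro x y
        show Q (T' (x ⊔ y)) = Q (T' x) ⊔ Q (T' y)
        rw [h1, hQ.lat]
      · intro a
        show Q (T' (p a)) = T (p a)
        rw [h2, hg2]
    intro x
    rw [← heq]
    rfl

end Pool.Agent.Q196.FB.TaskProj
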