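import Pool.Agent.Q196.FB.Stmts

/-!
# The values of terms are a sublattice (helper57)
-/

set_option autoImplicit false

namespace Pool.Agent.Q196.FB.TaskRange

open Set Pool.Agent.Q196.FB

theorem main : Pool.Agent.Q196.FB.TaskRange := by
  intro A X g
  refine ⟨{ carrier := range (ev g)
            add_mem' := ?_
            zero_mem' := ⟨Term.zero, rfl⟩
            smul_mem' := ?_ }, rfl, ?_⟩
  · rintro _ _ ⟨s, rfl⟩ ⟨t, rfl⟩
    exact ⟨Term.add s t, rfl⟩
  · rintro r _ ⟨t, rfl⟩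
    exact ⟨Term.smul r t, rfl⟩
  · rintro _ ⟨s, rfl⟩ _ ⟨t, rfl⟩
    exact ⟨Term.sup s t, rfl⟩

end Pool.Agent.Q196.FB.TaskRange
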