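import Pool.Agent.Q196.FB.Stmts

/-!
# A small family of Banach lattices that computes the suprema of the norms of terms
-/

set_option autoImplicit false

namespace Pool.Agent.Q196.FB.TaskSmall

open Set Pool.Agent.Q196.FB

theorem main : TaskSmall := by
  intro hB A
  have hbdd : ∀ t : Term A, BddAbove {r : ℝ | ∃ (X : BL) (g : A → X), PosC g ∧ r = ‖ev g t‖} := by
    intro t
    obtain ⟨C, hC⟩ := hB A t
    refine ⟨C, ?_⟩
    rintro r ⟨X, g, hg, rfl⟩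
    exact hC X g hg
  have hne : ∀ t : Term A, {r : ℝ | ∃ (X : BL) (g : A → X), PosC g ∧ r = ‖ev g t‖}.Nonempty := by
    intro t
    exact ⟨_, RL, fun _ => 0, fun a => ⟨le_refl _, by rw [norm_zero]; exact zero_le_one⟩, rfl⟩
  have hch : ∀ i : Term A × ℕ, ∃ (X : BL) (g : A → X), PosC g ∧
      sSup {r : ℝ | ∃ (X : BL) (g : A → X), PosC g ∧ r = ‖ev g i.1‖} - 1 / ((i.2 : ℝ) + 1) < ‖ev g i.1‖ := by
    intro i
    have hlt : sSup {r : ℝ | ∃ (X : BL) (g : A → X), PosC g ∧ r = ‖ev g i.1‖} - 1 / ((i.2 : ℝ) + 1) <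
        sSup {r : ℝ | ∃ (X : BL) (g : A → X), PosC g ∧ r = ‖ev g i.1‖} := by
      have : (0 : ℝ) < 1 / ((i.2 : ℝ) + 1) := by positivity
      linarith
    obtain ⟨r, ⟨X, g, hg, rfl⟩, hr⟩ := exists_lt_of_lt_csSup (hne i.1) hlt
    exact ⟨X, g, hg, hr⟩
  choose E f hf hlt using hch
  refine ⟨Term A × ℕ, E, f, hf, ?_⟩
  intro X g hg t ε hε
  obtain ⟨n, hn⟩ := exists_nat_one_div_lt hε
  refine ⟨(t, n), ?_⟩
  have h1 : ‖ev g t‖ ≤ sSup {r : ℝ | ∃ (X : BL) (g : A → X), PosC g ∧ r = ‖ev g t‖} :=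
    le_csSup (hbdd t) ⟨X, g, hg, rfl⟩
  have h2 := hlt (t, n)
  simp only at h2
  linarith

end Pool.Agent.Q196.FB.TaskSmall
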