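import Mathlib
import Pool.Agent.Q196.FB.Stmts

set_option autoImplicit false

namespace Pool.Agent.Q196.FB.TaskSum

open Set Filter Topology
open Pool.Agent.Q196.FB

theorem nonneg_of_isLat {X Y : BL} (T : X →L[ℝ] Y) (hT : IsLat T) (x : X) (hx : 0 ≤ x) : 0 ≤ T x := by
  have h := hT x 0
  rw [sup_eq_left.mpr hx, map_zero] at h
  exact sup_eq_left.mp h.symm

theorem main : Pool.Agent.Q196.FB.TaskSum := by
  intro hL A P p hp huniv huniq h k c hh hk hc hb
  obtain ⟨X, u, v, hu, hv, hnorm, hle, hsurj⟩ := hL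
  choose g hg1 hg2 using fun a : A => hsurj (h (p a)) (k (p a))
  have hg0 : ∀ a, 0 ≤ g a := by
    intro a
    apply hle
    · rw [hg1, map_zero]
      exact nonneg_of_isLat h hh _ (hp a).1
    · rw [hg2, map_zero]
      exact nonneg_of_isLat k hk _ (hp a).1
  obtain ⟨T, hT, hTg, hTn⟩ := huniv X g c hc (fun a => ⟨hg0 a, by
    rw [hnorm, hg1, hg2]
    exact hb a⟩)
  have e1 : u.comp T = h := by
    apply huniq RL _ _ _ hh
    · intro a
      rw [ContinuousLinearMap.comp_apply, hTg, hg1]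
    · intro x y
      rw [ContinuousLinearMap.comp_apply, ContinuousLinearMap.comp_apply,
        ContinuousLinearMap.comp_apply, hT, hu]
  have e2 : v.comp T = k := by
    apply huniq RL _ _ _ hk
    · intro a
      rw [ContinuousLinearMap.comp_apply, hTg, hg2]
    · intro x y
      rw [ContinuousLinearMap.comp_apply, ContinuousLinearMap.comp_apply,
        ContinuousLinearMap.comp_apply, hT, hv]
  refine ContinuousLinearMap.opNorm_le_bound _ hc.le fun x => ?_
  have h1 : (h + k) x = u (T x) + v (T x) := by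
    rw [← e1, ← e2]
    rfl
  rw [h1]
  calc ‖u (T x) + v (T x)‖ ≤ ‖u (T x)‖ + ‖v (T x)‖ := norm_add_le _ _
    _ = ‖T x‖ := (hnorm _).symm
    _ ≤ ‖T‖ * ‖x‖ := T.le_opNorm x
    _ ≤ c * ‖x‖ := mul_le_mul_of_nonneg_right hTn (norm_nonneg _)

end Pool.Agent.Q196.FB.TaskSum
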