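import Mathlib
import Pool.Agent.Q196.FB.Stmts

set_option autoImplicit false

namespace Pool.Agent.Q196.FB.TaskTrans

open Pool.Agent.Q196.FB

theorem special_comp {P F : BL} (U : P ≃ₗᵢ[ℝ] F) (hU : ∀ x y, U (x ⊔ y) = U x ⊔ U y)
    (h : F →L[ℝ] RL) (hs : Special h) :
    Special (h.comp (U.toContinuousLinearEquiv : P →L[ℝ] F)) := by
  have hsymm : ∀ x y, U.symm (x ⊔ y) = U.symm x ⊔ U.symm y := by
    intro x y
    apply U.injective
    rw [hU]
    simp
  have hnorm : ∀ f : F →L[ℝ] RL, ‖f.comp (U.toContinuousLinearEquiv : P →L[ℝ] F)‖ = ‖f‖ := by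
    intro f
    exact f.opNorm_comp_linearIsometryEquiv U
  obtain ⟨h1, h2, h3⟩ := hs
  refine ⟨?_, ?_, ?_⟩
  · intro x y
    show h (U (x ⊔ y)) = h (U x) ⊔ h (U y)
    rw [hU, h1]
  · rw [hnorm]; exact h2
  · intro z hz
    have hz' : IsLat (z.comp (U.symm.toContinuousLinearEquiv : F →L[ℝ] P)) := by
      intro x y
      show z (U.symm (x ⊔ y)) = z (U.symm x) ⊔ z (U.symm y)
      rw [hsymm, hz]
    have h4 := h3 _ hz'
    have e1 : (z.comp (U.symm.toContinuousLinearEquiv : F →L[ℝ] P)).comp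
        (U.toContinuousLinearEquiv : P →L[ℝ] F) = z := by
      ext x
      show z (U.symm (U x)) = z x
      simp
    have e2 : (h + z.comp (U.symm.toContinuousLinearEquiv : F →L[ℝ] P)).comp
        (U.toContinuousLinearEquiv : P →L[ℝ] F) =
        h.comp (U.toContinuousLinearEquiv : P →L[ℝ] F) + z := by
      rw [ContinuousLinearMap.add_comp, e1]
    rw [← e2, hnorm, h4]
    conv_rhs => rw [← e1, hnorm]

theorem main : TaskTrans := by
  intro P F U hU ⟨h, h', hs, hs', hne⟩
  refine ⟨_, _, special_comp U hU h hs, special_comp U hU h' hs', ?_⟩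
  intro heq
  apply hne
  ext x
  have := congrArg (fun f : P →L[ℝ] RL => f (U.symm x)) heq
  have h5 : h (U (U.symm x)) = h' (U (U.symm x)) := this
  simpa using h5

end Pool.Agent.Q196.FB.TaskTrans
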