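import Mathlib
import Pool.Agent.Q196.FB.Stmts

/-! # TaskUniq of the blueprint Q196/FB (helper161) -/

open Set Filter Topology

namespace Pool.Agent.Q196.FB.TaskUniq

theorem main : Pool.Agent.Q196.FB.TaskUniq := by
  intro hEv A P p hp X T T' hT hT' h
  have hfun : (fun a => T (p a)) = fun a => T' (p a) := funext h
  have key : ∀ t, T (ev p t) = T' (ev p t) := by
    intro t
    rw [hEv A P X T hT, hEv A P X T' hT', hfun]
  have h2 : (T : P → X) = (T' : P → X) := by
    refine Continuous.ext_on hp.dense T.continuous T'.continuous ?_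
    rintro _ ⟨t, rfl⟩
    exact key t
  exact DFunLike.coe_injective h2

end Pool.Agent.Q196.FB.TaskUniq
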