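import Pool.Agent.Q196.FB.Stmts

set_option autoImplicit false

namespace Pool.Agent.Q196.FB.TaskUniv

open Set Filter Topology
open Pool.Agent.Q196.FB

theorem main : Pool.Agent.Q196.FB.TaskUniv := by
  intro hRange A P p hP X g hg
  obtain ⟨S, hS, -⟩ := hRange A P p
  have hdom : ∀ t, ‖ev g t‖ ≤ ‖ev p t‖ := hP.dom X g hg
  -- equal values
  have hval : ∀ s t : Term A, ev p s = ev p t → ev g s = ev g t := by
    intro s t h
    have h1 := hdom (Term.add s (Term.smul (-1) t))
    have h2 : ev p (Term.add s (Term.smul (-1) t)) = 0 := by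
      change ev p s + (-1 : ℝ) • ev p t = 0
      rw [h]
      simp
    rw [h2, norm_zero] at h1
    have h3 : ev g (Term.add s (Term.smul (-1) t)) = 0 := norm_le_zero_iff.1 h1
    change ev g s + (-1 : ℝ) • ev g t = 0 at h3
    rw [neg_one_smul] at h3
    exact add_neg_eq_zero.1 h3
  have hch : ∀ x : S, ∃ t, ev p t = (x : P) := by
    intro x
    have hx : (x : P) ∈ (S : Set P) := x.2
    rw [hS] at hx
    exact hx
  choose τ hτ using hch
  let f : S →ₗ[ℝ] X :=
    { toFun := fun x => ev g (τ x)
      map_add' := by
        intro x y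
        have : ev p (τ (x + y)) = ev p (Term.add (τ x) (τ y)) := by
          change ev p (τ (x + y)) = ev p (τ x) + ev p (τ y)
          rw [hτ, hτ, hτ]
          rfl
        exact hval _ _ this
      map_smul' := by
        intro c x
        have : ev p (τ (c • x)) = ev p (Term.smul c (τ x)) := by
          change ev p (τ (c • x)) = c • ev p (τ x)
          rw [hτ, hτ]
          rfl
        exact hval _ _ this }
  have hf : ∀ x, ‖f x‖ ≤ 1 * ‖x‖ := by
    intro x
    have h1 := hdom (τ x)
    rw [hτ] at h1
    rw [one_mul]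
    exact h1
  have hden : DenseRange (S.subtypeL : S →L[ℝ] P) := by
    have h1 : range (S.subtypeL : S →L[ℝ] P) = range (ev p) := by
      rw [← hS]
      ext x
      simp
    rw [DenseRange, h1]
    exact hP.dense
  have hui : IsUniformInducing (S.subtypeL : S →L[ℝ] P) :=
    isUniformEmbedding_subtype_val.isUniformInducing
  let T : P →L[ℝ] X := (f.mkContinuous 1 hf).extend S.subtypeL
  have hT : ∀ t : Term A, T (ev p t) = ev g t := by
    intro t
    have hx : ev p t ∈ S := by
      have : ev p t ∈ (S : Set P) := by
        rw [hS]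
        exact mem_range_self t
      exact this
    have h1 := ContinuousLinearMap.extend_eq (f.mkContinuous 1 hf) (e := S.subtypeL) hden hui
      ⟨ev p t, hx⟩
    have h2 : f.mkContinuous 1 hf ⟨ev p t, hx⟩ = ev g t := by
      change ev g (τ ⟨ev p t, hx⟩) = ev g t
      exact hval _ _ (hτ ⟨ev p t, hx⟩)
    rw [h2] at h1
    exact h1
  have hdr : DenseRange (ev p) := hP.dense
  refine ⟨T, ?_, ?_, ?_⟩
  · intro x y
    refine hdr.induction_on₂ (p := fun x y => T (x ⊔ y) = T x ⊔ T y) ?_ ?_ x y
    · apply isClosed_eq
      · exact T.continuous.comp (continuous_fst.sup continuous_snd)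
      · exact (T.continuous.comp continuous_fst).sup (T.continuous.comp continuous_snd)
    · intro s t
      have h1 := hT (Term.sup s t)
      change T (ev p s ⊔ ev p t) = ev g s ⊔ ev g t at h1
      rw [h1, hT s, hT t]
  · intro a
    exact hT (Term.var a)
  · apply ContinuousLinearMap.opNorm_le_bound _ zero_le_one
    intro x
    refine hdr.induction_on (p := fun x => ‖T x‖ ≤ 1 * ‖x‖) x ?_ ?_
    · exact isClosed_le (T.continuous.norm) (continuous_const.mul continuous_norm)
    · intro t
      rw [hT t, one_mul]
      exact hdom t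

end Pool.Agent.Q196.FB.TaskUniv
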