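import Pool.Agent.Q196.FB.Stmts

set_option autoImplicit false

namespace Pool.Agent.Q196.FB.TaskUnivC

open Pool.Agent.Q196.FB

lemma smul_sup' {X : BL} (c : ℝ) (hc : 0 < c) (x y : X) : c • (x ⊔ y) = (c • x) ⊔ (c • y) := by
  have mono : ∀ (r : ℝ) (a b : X), 0 ≤ r → a ≤ b → r • a ≤ r • b := fun r a b hr h =>
    PosSMulMono.smul_le_smul_of_nonneg_left hr h
  apply le_antisymm
  · have h1 : x ≤ c⁻¹ • ((c • x) ⊔ (c • y)) := by
      have := mono c⁻¹ (c • x) ((c • x) ⊔ (c • y)) (inv_pos.2 hc).le le_sup_left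
      rwa [smul_smul, inv_mul_cancel₀ hc.ne', one_smul] at this
    have h2 : y ≤ c⁻¹ • ((c • x) ⊔ (c • y)) := by
      have := mono c⁻¹ (c • y) ((c • x) ⊔ (c • y)) (inv_pos.2 hc).le le_sup_right
      rwa [smul_smul, inv_mul_cancel₀ hc.ne', one_smul] at this
    have h3 := mono c _ _ hc.le (sup_le h1 h2)
    rwa [smul_smul, mul_inv_cancel₀ hc.ne', one_smul] at h3
  · exact sup_le (mono c _ _ hc.le le_sup_left) (mono c _ _ hc.le le_sup_right)

theorem main : Pool.Agent.Q196.FB.TaskUnivC := by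
  intro A P p h X g c hc hg
  obtain ⟨T, hT1, hT2, hT3⟩ := h X (fun a => c⁻¹ • g a) (fun a => by
    constructor
    · exact smul_nonneg (inv_pos.2 hc).le (hg a).1
    · rw [norm_smul, norm_inv, Real.norm_of_nonneg hc.le, inv_mul_le_iff₀ hc, mul_one]
      exact (hg a).2)
  refine ⟨c • T, fun x y => ?_, fun a => ?_, ?_⟩
  · change c • T (x ⊔ y) = (c • T x) ⊔ (c • T y)
    rw [hT1 x y]
    exact smul_sup' c hc _ _
  · change c • T (p a) = g a
    rw [hT2 a, smul_smul, mul_inv_cancel₀ hc.ne', one_smul]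
  · rw [norm_smul, Real.norm_of_nonneg hc.le]
    nlinarith

end Pool.Agent.Q196.FB.TaskUnivC
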