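import Pool.Agent.Q196.FB.Asm
import Pool.Agent.Q196.FB.TaskLp
import Pool.Agent.Q196.FB.TaskClosure
import Pool.Agent.Q196.FB.TaskBound
import Pool.Agent.Q196.FB.TaskSmall
import Pool.Agent.Q196.FB.TaskEvHom
import Pool.Agent.Q196.FB.TaskRange
import Pool.Agent.Q196.FB.TaskGen
import Pool.Agent.Q196.FB.TaskUniq
import Pool.Agent.Q196.FB.TaskUniv
import Pool.Agent.Q196.FB.TaskUnivC
import Pool.Agent.Q196.FB.TaskPosLift
import Pool.Agent.Q196.FB.TaskProj
import Pool.Agent.Q196.FB.TaskCount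
import Pool.Agent.Q196.FB.TaskNoUnit
import Pool.Agent.Q196.FB.TaskL1
import Pool.Agent.Q196.FB.TaskSum
import Pool.Agent.Q196.FB.TaskMP
import Pool.Agent.Q196.FB.TaskMF
import Pool.Agent.Q196.FB.TaskTrans

set_option autoImplicit false

namespace Pool.Agent.Q196.FB

theorem main (A : Type) [Uncountable A] :
    ∃ (P : BL) (p : A → P), IsFreePos A P p ∧ Projective P ∧ (∀ e : P, ¬ IsTOU e) ∧
      ∀ (B : Type) (F : BL) (δ : B → F), Nonempty B → IsFree B F δ →
        ¬ ∃ U : P ≃ₗᵢ[ℝ] F, ∀ x y, U (x ⊔ y) = U x ⊔ U y :=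
  assemble TaskLp.main TaskClosure.main TaskBound.main TaskSmall.main TaskEvHom.main
    TaskRange.main TaskGen.main TaskUniq.main TaskUniv.main TaskUnivC.main TaskPosLift.main
    TaskProj.main TaskCount.main TaskNoUnit.main TaskL1.main TaskSum.main TaskMP.main
    TaskMF.main TaskTrans.main A

end Pool.Agent.Q196.FB
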