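import Mathlib
import Pool.Agent.Q196.FB.Stmts

set_option autoImplicit false

namespace Pool.Agent.Q196.FB.TaskCount

open Set Filter Topology Pool.Agent.Q196.FB

theorem fin {A : Type} {P : BL} (p : A → P) (z : A → (P →L[ℝ] RL)) (hz : ∀ a, IsLat (z a))
    (hp : ∀ a b, b ≠ a → z a (p b) = (0 : ℝ)) (t : Term A) :
    {a | z a (ev p t) ≠ (0 : ℝ)}.Finite := by
  induction t with
  | var b =>
    refine (Set.finite_singleton b).subset ?_
    intro a ha
    by_contra h
    exact ha (hp a b (fun e => h e.symm))
  | zero =>
    refine Set.finite_empty.subset ?_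
    intro a ha
    exact ha (map_zero (z a))
  | add s t hs ht =>
    refine (hs.union ht).subset ?_
    intro a ha
    by_contra h
    have h1 : z a (ev p s) = (0 : ℝ) := by
      by_contra h'
      exact h (Or.inl h')
    have h2 : z a (ev p t) = (0 : ℝ) := by
      by_contra h'
      exact h (Or.inr h')
    apply ha
    have e : z a (ev p (Term.add s t)) = z a (ev p s) + z a (ev p t) := map_add (z a) _ _
    rw [e, h1, h2]
    exact add_zero (0 : ℝ)
  | smul r t ht =>
    refine ht.subset ?_
    intro a ha h2
    apply ha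
    have e : z a (ev p (Term.smul r t)) = r • z a (ev p t) := map_smul (z a) _ _
    rw [e, h2]
    exact smul_zero (A := ℝ) r
  | sup s t hs ht =>
    refine (hs.union ht).subset ?_
    intro a ha
    by_contra h
    have h1 : z a (ev p s) = (0 : ℝ) := by
      by_contra h'
      exact h (Or.inl h')
    have h2 : z a (ev p t) = (0 : ℝ) := by
      by_contra h'
      exact h (Or.inr h')
    apply ha
    have e : z a (ev p (Term.sup s t)) = z a (ev p s) ⊔ z a (ev p t) := hz a _ _
    rw [e, h1, h2]
    exact sup_idem (0 : ℝ)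

theorem main : Pool.Agent.Q196.FB.TaskCount := by
  intro _ A P p hd z hz hp x
  have hx : x ∈ closure (range (ev p)) := hd x
  obtain ⟨y, hy, hlim⟩ := mem_closure_iff_seq_limit.1 hx
  choose t ht using hy
  refine (Set.countable_iUnion fun n => (fin p z hz hp (t n)).countable).mono ?_
  intro a ha
  by_contra h
  apply ha
  have h0 : ∀ n, z a (y n) = (0 : ℝ) := by
    intro n
    by_contra h'
    apply h
    refine mem_iUnion.2 ⟨n, ?_⟩
    show z a (ev p (t n)) ≠ (0 : ℝ)
    rw [ht n]
    exact h'
  have h1 : Tendsto (fun n => z a (y n)) atTop (𝓝 (z a x)) :=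
    ((z a).continuous.tendsto x).comp hlim
  have h2 : Tendsto (fun n => z a (y n)) atTop (𝓝 (0 : ℝ)) := by
    have : (fun n => z a (y n)) = fun _ => (0 : ℝ) := funext h0
    rw [this]
    exact tendsto_const_nhds
  exact tendsto_nhds_unique h1 h2

end Pool.Agent.Q196.FB.TaskCount
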